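import Pool.Agent.H44.K2.ACT1
import Pool.Agent.H13.K2S.OcFam

/-!
# The active digits of the base velocity

From the rows (ACT), (FRZ), (ACTSEL), (H4) of helper44: a set `G` of positive density of starting
digits `q` such that, given the exact point and the digits of the base velocity up to `q`, the next
digits have linear entropy, for all lengths at once; hence these digits are not frozen, and they
are active in every context `(w, q)`.
-/

set_option autoImplicit false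

namespace Pool.K2S

open Finset Real
open Pool.Agent.H49.Ent Pool.Agent.H32.Dense Pool.STK Pool.KA Pool.KSAT

variable {J : ℕ}

theorem fl_coarse {Ω : Type} (y : Ω → ℝ) (r n : ℕ) (ω : Ω) :
    ⌊(2 : ℝ) ^ r * y ω⌋ = ⌊(2 : ℝ) ^ (r + n) * y ω⌋ / (2 ^ n : ℤ) := by
  have e : (2 : ℝ) ^ r * y ω = (2 : ℝ) ^ (r + n) * y ω / ((2 ^ n : ℕ) : ℝ) := by
    push_cast
    rw [eq_div_iff (by positivity), pow_add]
    ring
  rw [e, Int.floor_div_natCast]
  push_cast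
  rfl

/-- The entropy of new digits is a difference. -/
theorem CH_fl_sub {Ω S : Type} [Fintype Ω] {p : Ω → ℝ} (hp : IsLaw p) (y : Ω → ℝ) (W : Ω → S)
    (r n : ℕ) :
    CH p (fun ω => ⌊(2 : ℝ) ^ (r + n) * y ω⌋) (fun ω => (⌊(2 : ℝ) ^ r * y ω⌋, W ω)) =
      CH p (fun ω => ⌊(2 : ℝ) ^ (r + n) * y ω⌋) W - CH p (fun ω => ⌊(2 : ℝ) ^ r * y ω⌋) W := by
  have h1 := CH_chain hp.nonneg (fun ω => ⌊(2 : ℝ) ^ (r + n) * y ω⌋)
    (fun ω => ⌊(2 : ℝ) ^ r * y ω⌋) W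
  have h2 : CH p (fun ω => (⌊(2 : ℝ) ^ (r + n) * y ω⌋, ⌊(2 : ℝ) ^ r * y ω⌋)) W =
      CH p (fun ω => ⌊(2 : ℝ) ^ (r + n) * y ω⌋) W := by
    refine CH_congr hp.nonneg ?_ ?_ (fun _ _ _ _ h => h) (fun _ _ _ _ h => h)
    · intro ω ω' _ _ h
      exact (Prod.ext_iff.mp (Prod.ext_iff.mp h).1).1
    · intro ω ω' _ _ h
      have h3 : ⌊(2 : ℝ) ^ (r + n) * y ω⌋ = ⌊(2 : ℝ) ^ (r + n) * y ω'⌋ := (Prod.ext_iff.mp h).1
      exact Prod.ext h3 (by
        change ⌊(2 : ℝ) ^ r * y ω⌋ = ⌊(2 : ℝ) ^ r * y ω'⌋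
        rw [fl_coarse y r n ω, fl_coarse y r n ω', h3])
  linarith

/-- `n` new digits have at most `n` bits. -/
theorem CH_fl_le {Ω S : Type} [Fintype Ω] {p : Ω → ℝ} (hp : IsLaw p) (y : Ω → ℝ) (W : Ω → S)
    (r n : ℕ) :
    CH p (fun ω => ⌊(2 : ℝ) ^ (r + n) * y ω⌋) (fun ω => (⌊(2 : ℝ) ^ r * y ω⌋, W ω)) ≤
      n * Real.log 2 := by
  have h1 := CH_le_card hp.nonneg hp.sum_one (fun ω => ⌊(2 : ℝ) ^ (r + n) * y ω⌋)
    (fun ω => (⌊(2 : ℝ) ^ r * y ω⌋, W ω))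
    (fun w => Finset.Ico (w.1 * 2 ^ n) (w.1 * 2 ^ n + 2 ^ n))
    (fun ω _ => by
      rw [Finset.mem_Ico]
      change ⌊(2 : ℝ) ^ r * y ω⌋ * 2 ^ n ≤ ⌊(2 : ℝ) ^ (r + n) * y ω⌋ ∧
        ⌊(2 : ℝ) ^ (r + n) * y ω⌋ < ⌊(2 : ℝ) ^ r * y ω⌋ * 2 ^ n + 2 ^ n
      rw [fl_coarse y r n ω]
      have h2 := Int.mul_ediv_add_emod ⌊(2 : ℝ) ^ (r + n) * y ω⌋ (2 ^ n)
      have h3 := Int.emod_nonneg ⌊(2 : ℝ) ^ (r + n) * y ω⌋ (b := 2 ^ n) (by positivity)
      have h4 := Int.emod_lt_of_pos ⌊(2 : ℝ) ^ (r + n) * y ω⌋ (b := 2 ^ n) (by positivity)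
      have h5 := mul_comm (2 ^ n) (⌊(2 : ℝ) ^ (r + n) * y ω⌋ / 2 ^ n : ℤ)
      constructor <;> linarith)
  have h2 : ∀ a : ℤ, ((Finset.Ico (a * 2 ^ n) (a * 2 ^ n + 2 ^ n)).card : ℝ) = 2 ^ n := by
    intro a
    rw [Int.card_Ico]
    have : a * 2 ^ n + 2 ^ n - a * 2 ^ n = ((2 ^ n : ℕ) : ℤ) := by push_cast; ring
    rw [this, Int.toNat_natCast]
    push_cast
    rfl
  simp only [h2] at h1
  rw [Ex_const hp.sum_one, Real.log_pow] at h1
  exact h1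

/-- The integer part of a coordinate of the direction has at most `log 3`. -/
theorem CH_fl_zero {m : ℕ} (F : Fam m J) {p : F.Ω → ℝ} (hp : IsLaw p) {S : Type} (W : F.Ω → S)
    (i₀ : Fin m) : CH p (fun ω => ⌊(2 : ℝ) ^ 0 * F.d ω i₀⌋) W ≤ Real.log 3 := by
  have h1 := CH_le_card hp.nonneg hp.sum_one (fun ω => ⌊(2 : ℝ) ^ 0 * F.d ω i₀⌋) W
    (fun _ => Finset.Icc (-1) 1)
    (fun ω _ => by
      have h := abs_le.1 (F.dir ω i₀)
      rw [pow_zero, one_mul, Finset.mem_Icc]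
      constructor
      · rw [Int.le_floor]
        push_cast
        exact h.1
      · have h2 : ⌊F.d ω i₀⌋ < 2 := by
          rw [Int.floor_lt]
          push_cast
          linarith [h.2]
        omega)
  have h2 : (((Finset.Icc (-1 : ℤ) 1).card : ℕ) : ℝ) = 3 := by
    have h3 : (Finset.Icc (-1 : ℤ) 1).card = 3 := by decide
    rw [h3]
    norm_num
  simp only [h2] at h1
  rw [Ex_const hp.sum_one] at h1
  exact h1

/-- **The active digits.** -/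
theorem act_good {a R : ℝ} (ha : 1 < a) (hR : 0 < R) (hU : UBa 2 a R) :
    ∃ cR : ℝ, 0 < cR ∧ ∀ h₁ : ℝ, 0 < h₁ → ∀ N q₁ : ℕ, 0 < q₁ → q₁ ≤ N →
    Claim (m := 2) a R (fun J F A => ∀ i₀ : Fin 2, Lb F i₀ ⌊h₁ * J⌋₊ A →
      Ln F i₀ (q₁ * (J / N)) A → ∃ G : Finset ℕ, G ⊆ range q₁ ∧ cR * q₁ ≤ (G.card : ℝ) ∧
      ∀ q ∈ G, ∀ s : ℕ, q + s ≤ q₁ →
        cR * (s * ((J / N : ℕ) * Real.log 2)) ≤ CH (Pool.Agent.H49.Ent.cond F.p A True)
          (fun ω => ⌊(2 : ℝ) ^ ((q + s) * (J / N)) * F.d ω i₀⌋)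
          (fun ω => (⌊(2 : ℝ) ^ (q * (J / N)) * F.d ω i₀⌋, Fam.pt F ω))) := by
  classical
  obtain ⟨c₁, hc₁, hact⟩ := act1_thm a R ha hR hU
  have hl2 : 0 < Real.log 2 := Real.log_pos (by norm_num)
  refine ⟨c₁ / (4 * Real.log 2), by positivity, fun h₁ hh₁ N q₁ hq₁ hqN => ?_⟩
  have hN : 0 < N := by omega
  have hNr : (0 : ℝ) < N := by exact_mod_cast hN
  have hq₁r : (0 : ℝ) < q₁ := by exact_mod_cast hq₁
  have hlaw : Claim (m := 2) a R (fun J F A =>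
      IsLaw (Pool.Agent.H49.Ent.cond F.p A True)) := by
    refine Claim.of one_pos 0 fun J _ F A hS => ?_
    obtain ⟨h, -⟩ := hS.res ha.le one_pos.le
    exact h
  obtain ⟨J₂, hJ₂⟩ := exists_nat_gt (2 * N * (2 * Real.log 3 / (c₁ * q₁)) + N)
  refine Claim.mono J₂ ?_ (hlaw.and (hact (q₁ / (2 * N)) h₁ (by positivity) hh₁))
  rintro J hJ F A ⟨hQ, h⟩ i₀ hLb hLn
  obtain ⟨u, hu⟩ : ∃ u, u = J / N := ⟨_, rfl⟩
  rw [← hu] at hLn ⊢
  have hJr : 2 * N * (2 * Real.log 3 / (c₁ * q₁)) + N < J :=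
    hJ₂.trans_le (by exact_mod_cast hJ)
  have hl3 : 0 < Real.log 3 := Real.log_pos (by norm_num)
  have hbig : 0 ≤ 2 * N * (2 * Real.log 3 / (c₁ * q₁)) := by positivity
  have hNJ : (N : ℝ) < J := by linarith
  have hu1 : N * u ≤ J := by rw [hu]; exact Nat.mul_div_le J N
  have hu2 : J < N * (u + 1) := by rw [hu]; exact Nat.lt_mul_div_succ J hN
  have hu2r : (J : ℝ) < N * (u + 1) := by exact_mod_cast hu2
  have hu0 : 0 < u := by
    rcases Nat.eq_zero_or_pos u with h0 | h0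
    · rw [h0] at hu2r
      push_cast at hu2r
      linarith
    · exact h0
  have hur : (1 : ℝ) ≤ u := by exact_mod_cast hu0
  have hJu : (J : ℝ) ≤ 2 * N * u := by nlinarith
  have hq1 : q₁ * u ≤ J := le_trans (Nat.mul_le_mul_right u hqN) hu1
  have hq2 : (q₁ : ℝ) / (2 * N) * J ≤ ((q₁ * u : ℕ) : ℝ) := by
    push_cast
    rw [div_mul_eq_mul_div, div_le_iff₀ (by positivity)]
    have := mul_le_mul_of_nonneg_left hJu hq₁r.le
    linarith
  have key := h i₀ hLb (q₁ * u) hq1 hq2 hLn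
  obtain ⟨Q, hQdef⟩ : ∃ Q, Q = Pool.Agent.H49.Ent.cond F.p A True := ⟨_, rfl⟩
  rw [← hQdef] at key hQ ⊢
  obtain ⟨f, hf⟩ : ∃ f : ℕ → ℝ, f = fun q =>
      CH Q (fun ω => ⌊(2 : ℝ) ^ (q * u) * F.d ω i₀⌋) (Fam.pt F) / (u * Real.log 2) := ⟨_, rfl⟩
  have hul : 0 < (u : ℝ) * Real.log 2 := by positivity
  have hdiff : ∀ q s : ℕ, CH Q (fun ω => ⌊(2 : ℝ) ^ ((q + s) * u) * F.d ω i₀⌋)
      (fun ω => (⌊(2 : ℝ) ^ (q * u) * F.d ω i₀⌋, Fam.pt F ω)) =
      (f (q + s) - f q) * (u * Real.log 2) := by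
    intro q s
    have h1 := CH_fl_sub hQ (fun ω => F.d ω i₀) (Fam.pt F) (q * u) (s * u)
    have e : q * u + s * u = (q + s) * u := by ring
    rw [e] at h1
    rw [h1, hf]
    simp only
    field_simp
  have hinc : ∀ q < q₁, 0 ≤ f (q + 1) - f q ∧ f (q + 1) - f q ≤ 1 := by
    intro q _
    have h1 := hdiff q 1
    have h2 := CH_nonneg hQ.nonneg (fun ω => ⌊(2 : ℝ) ^ ((q + 1) * u) * F.d ω i₀⌋)
      (fun ω => (⌊(2 : ℝ) ^ (q * u) * F.d ω i₀⌋, Fam.pt F ω))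
    have h3 := CH_fl_le hQ (fun ω => F.d ω i₀) (Fam.pt F) (q * u) (1 * u)
    have e : q * u + 1 * u = (q + 1) * u := by ring
    rw [e, one_mul] at h3
    rw [h1] at h2 h3
    constructor
    · exact nonneg_of_mul_nonneg_left h2 hul
    · by_contra hcon
      push Not at hcon
      nlinarith
  have hf0 : f 0 ≤ c₁ / (2 * Real.log 2) * q₁ := by
    have h1 := CH_fl_zero F hQ (Fam.pt F) i₀
    rw [hf]
    simp only
    rw [Nat.zero_mul, div_le_iff₀ hul]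
    refine h1.trans ?_
    have h2 : 2 * Real.log 3 / (c₁ * q₁) ≤ u := by
      have h3 : 2 * N * (2 * Real.log 3 / (c₁ * q₁)) ≤ 2 * N * u := by linarith
      exact le_of_mul_le_mul_left h3 (by positivity)
    rw [div_le_iff₀ (by positivity)] at h2
    have e : c₁ / (2 * Real.log 2) * q₁ * (u * Real.log 2) = u * (c₁ * q₁) / 2 := by
      field_simp
    rw [e]
    linarith
  have hf1 : c₁ / Real.log 2 * q₁ ≤ f q₁ := by
    rw [hf]
    simp only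
    rw [le_div_iff₀ hul]
    push_cast at key
    have e : c₁ / Real.log 2 * q₁ * (u * Real.log 2) = c₁ * (q₁ * u) := by
      field_simp
    rw [e]
    exact key
  have hsel := actsel_thm q₁ (c₁ / (2 * Real.log 2)) f (by positivity) hinc (by
    have e : c₁ / Real.log 2 * q₁ = c₁ / (2 * Real.log 2) * q₁ + c₁ / (2 * Real.log 2) * q₁ := by
      field_simp
      ring
    linarith)
  have ec : c₁ / (2 * Real.log 2) / 2 = c₁ / (4 * Real.log 2) := by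
    field_simp
    ring
  rw [ec] at hsel
  refine ⟨(range q₁).filter fun q => ∀ s, q + s ≤ q₁ →
    c₁ / (4 * Real.log 2) * s ≤ f (q + s) - f q, Finset.filter_subset _ _, ?_,
    fun q hq s hs => ?_⟩
  · refine hsel.trans (le_of_eq ?_)
    congr 1
  · rw [Finset.mem_filter] at hq
    have h1 := hq.2 s hs
    rw [hdiff q s]
    have h2 := mul_le_mul_of_nonneg_right h1 hul.le
    linarith

/-- **The active digits**, all consequences, for digits after `q₀`. -/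
theorem act_set {a R : ℝ} (ha : 1 < a) (hR : 0 < R) (hU : UBa 2 a R) :
    ∃ cR C : ℝ, 0 < cR ∧ ∀ h₁ : ℝ, 0 < h₁ → ∀ N q₀ q₁ : ℕ, 0 < q₁ → q₁ ≤ N →
    (q₀ : ℝ) ≤ cR * q₁ →
    Claim (m := 2) a R (fun J F A => ∀ i₀ : Fin 2, Lb F i₀ ⌊h₁ * J⌋₊ A →
      Ln F i₀ (q₁ * (J / N)) A → ∃ G : Finset ℕ, G ⊆ Ico q₀ q₁ ∧ cR * q₁ ≤ (G.card : ℝ) ∧
      ∀ q ∈ G, ∀ s : ℕ, q + s ≤ q₁ →
        cR * (s * ((J / N : ℕ) * Real.log 2)) ≤ CH (Pool.Agent.H49.Ent.cond F.p A True)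
          (fun ω => ⌊(2 : ℝ) ^ ((q + s) * (J / N)) * F.d ω i₀⌋)
          (fun ω => (⌊(2 : ℝ) ^ (q * (J / N)) * F.d ω i₀⌋, Fam.pt F ω)) ∧
        (0 < s → ¬ Frz F i₀ (q * (J / N)) ((q + s) * (J / N)) A) ∧
        ∀ (f n : (Fin 2 → ℤ) × (ℕ × F.ζ) → Fin 2 → ℝ) (w l H : ℕ) (z : F.Ω → Fin 2 → ℝ),
          Frm F i₀ A H f n → Win F i₀ A f w l z → q * (J / N) + w + l ≤ J →
          q * (J / N) + l ≤ H →
          cR * (s * ((J / N : ℕ) * Real.log 2)) - C ≤ CH (Pool.Agent.H49.Ent.cond F.p A True)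
            (fun ω => ⌊(2 : ℝ) ^ (s * (J / N)) * F.gd (q * (J / N)) l i₀ z ω i₀⌋)
            (F.qlb w (q * (J / N)) l i₀ z)) := by
  obtain ⟨c₁, hc₁, hact⟩ := act_good ha hR hU
  obtain ⟨C₁, hfrz⟩ := frz_thm
  obtain ⟨C, hH4⟩ := h4_thm
  have hl2 : 0 < Real.log 2 := Real.log_pos (by norm_num)
  refine ⟨c₁ / 2, C, by positivity, fun h₁ hh₁ N q₀ q₁ hq₁ hqN hq₀ => ?_⟩
  have hN : 0 < N := by omega
  have hNr : (0 : ℝ) < N := by exact_mod_cast hN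
  have hlaw : Claim (m := 2) a R (fun J F A =>
      IsLaw (Pool.Agent.H49.Ent.cond F.p A True)) := by
    refine Claim.of one_pos 0 fun J _ F A hS => ?_
    obtain ⟨h, -⟩ := hS.res ha.le one_pos.le
    exact h
  obtain ⟨J₂, hJ₂⟩ := exists_nat_gt (N * (|C₁| / (c₁ / 2 * Real.log 2) + 1))
  refine Claim.mono J₂ ?_ (hlaw.and (hact h₁ hh₁ N q₁ hq₁ hqN))
  rintro J hJ F A ⟨hQ, h⟩ i₀ hLb hLn
  obtain ⟨G, hG1, hG2, hG3⟩ := h i₀ hLb hLn
  have hJr : N * (|C₁| / (c₁ / 2 * Real.log 2) + 1) < J := hJ₂.trans_le (by exact_mod_cast hJ)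
  obtain ⟨u, hu⟩ : ∃ u, u = J / N := ⟨_, rfl⟩
  rw [← hu] at hG3 ⊢
  have hu2 : J < N * (u + 1) := by rw [hu]; exact Nat.lt_mul_div_succ J hN
  have hu2r : (J : ℝ) < N * (u + 1) := by exact_mod_cast hu2
  have hC0 : 0 ≤ |C₁| / (c₁ / 2 * Real.log 2) := by positivity
  have hu3 : |C₁| / (c₁ / 2 * Real.log 2) < u := by
    have h1 : (N : ℝ) * (|C₁| / (c₁ / 2 * Real.log 2) + 1) < N * (u + 1) := hJr.trans hu2r
    have h2 := lt_of_mul_lt_mul_left h1 hNr.le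
    linarith
  have hur : (0 : ℝ) < u := lt_of_le_of_lt hC0 hu3
  rw [div_lt_iff₀ (by positivity)] at hu3
  refine ⟨G.filter fun q => q₀ ≤ q, ?_, ?_, ?_⟩
  · intro q hq
    rw [Finset.mem_filter] at hq
    rw [Finset.mem_Ico]
    exact ⟨hq.2, Finset.mem_range.1 (hG1 hq.1)⟩
  · have h1 : G.card ≤ (G.filter fun q => q₀ ≤ q).card + q₀ := by
      rw [← Finset.card_filter_add_card_filter_not (s := G) (fun q => q₀ ≤ q)]
      refine Nat.add_le_add_left ?_ _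
      calc (G.filter fun q => ¬ q₀ ≤ q).card ≤ (range q₀).card := by
            refine Finset.card_le_card fun q hq => ?_
            rw [Finset.mem_filter] at hq
            rw [Finset.mem_range]
            omega
        _ = q₀ := Finset.card_range _
    have h2 : (G.card : ℝ) ≤ ((G.filter fun q => q₀ ≤ q).card : ℝ) + q₀ := by exact_mod_cast h1
    linarith
  · intro q hq s hs
    rw [Finset.mem_filter] at hq
    have h1 := hG3 q hq.1 s hs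
    have h0 : 0 ≤ (s : ℝ) * (u * Real.log 2) := by positivity
    have h2 : c₁ / 2 * (s * (u * Real.log 2)) ≤ CH (Pool.Agent.H49.Ent.cond F.p A True)
          (fun ω => ⌊(2 : ℝ) ^ ((q + s) * u) * F.d ω i₀⌋)
          (fun ω => (⌊(2 : ℝ) ^ (q * u) * F.d ω i₀⌋, Fam.pt F ω)) := by
      refine le_trans ?_ h1
      exact mul_le_mul_of_nonneg_right (by linarith) h0
    refine ⟨h2, fun hs0 hF => ?_, fun f n w l H z hFr hW hJ1 hH => ?_⟩
    · have h3 := hfrz J F i₀ A (q * u) ((q + s) * u) hQ hF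
      have hs1 : (1 : ℝ) ≤ s := by exact_mod_cast hs0
      have h4 : c₁ / 2 * (1 * (u * Real.log 2)) ≤ c₁ / 2 * (s * (u * Real.log 2)) := by
        refine mul_le_mul_of_nonneg_left ?_ (by positivity)
        exact mul_le_mul_of_nonneg_right hs1 (by positivity)
      have h5 : C₁ ≤ |C₁| := le_abs_self _
      have h6 : c₁ / 2 * (1 * (u * Real.log 2)) = u * (c₁ / 2 * Real.log 2) := by ring
      linarith
    · have h3 := hH4 J F i₀ A f n w (q * u) l (s * u) H z hQ hFr hW hJ1 hH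
      have e : q * u + s * u = (q + s) * u := by ring
      rw [e] at h3
      linarith

end Pool.K2S
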